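import Pool.Agent.X37.FS.Var

/-!
# MP_0ad054_nt: four squares of almost primes with an almost prime pair `p - 2`, `p`

Every large odd `n ≡ 1 (mod 3)` has many representations `n = x² + y² + z² + w²` for which `x y z w` is not zero and
has a bounded number of odd prime factors, all of them larger than `n ^ δ`, and both `p = x² + 3 y² + 5 z² + 7 w²`
and `p - 2` are almost primes; moreover `(x, y, z, w)` may be prescribed modulo odd squarefree `M ≤ n ^ δ`.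
-/

set_option autoImplicit false

namespace Pool.Agent.Results.MP_0ad054_nt.AlmostPrimeVariables

/-- the form `p` of the problem -/
def p (x y z w : ℤ) : ℤ := x ^ 2 + 3 * y ^ 2 + 5 * z ^ 2 + 7 * w ^ 2

/-- the number of prime factors of `a`, with multiplicity -/
def Ω (a : ℤ) : ℕ := ArithmeticFunction.cardFactors a.natAbs

open Pool.Agent.X37.FS Pool.Agent.W65.FS

theorem result (ε : ℝ) (hε : 0 < ε) : ∃ K : ℕ, ∃ δ : ℝ, 0 < δ ∧ ∃ n₀ : ℕ, ∀ n : ℕ, Odd n → n % 3 = 1 → n₀ ≤ n →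
    ∀ M : ℕ, Odd M → Squarefree M → (M : ℝ) ≤ (n : ℝ) ^ δ →
    ∀ a b c d : ℤ, (M : ℤ) ∣ a ^ 2 + b ^ 2 + c ^ 2 + d ^ 2 - n →
    IsCoprime (a * b * c * d * (p a b c d * (p a b c d - 2))) (M : ℤ) →
    ∃ S : Finset (ℤ × ℤ × ℤ × ℤ), (n : ℝ) ^ (1 - ε) ≤ S.card ∧ ∀ x y z w : ℤ, (x, y, z, w) ∈ S →
      (n : ℤ) = x ^ 2 + y ^ 2 + z ^ 2 + w ^ 2 ∧
      ((M : ℤ) ∣ x - a ∧ (M : ℤ) ∣ y - b ∧ (M : ℤ) ∣ z - c ∧ (M : ℤ) ∣ w - d) ∧
      (0 < p x y z w - 2 ∧ Ω (p x y z w) ≤ K ∧ Ω (p x y z w - 2) ≤ K ∧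
        ∀ q : ℕ, q.Prime → (q : ℤ) ∣ p x y z w * (p x y z w - 2) → (n : ℝ) ^ δ < q) ∧
      (x * y * z * w ≠ 0 ∧ ∃ e m : ℕ, (x * y * z * w).natAbs = 2 ^ e * m ∧ ArithmeticFunction.cardFactors m ≤ K ∧
        ∀ q : ℕ, q.Prime → q ∣ m → (n : ℝ) ^ δ < q) := by
  classical
  obtain ⟨K, δ, hδ, n₀, hvar⟩ := almost_vars ε hε
  refine ⟨K, δ, hδ, n₀, fun n hno hn3 hn M hMo hMs hMn a b c d habcd hcop => ?_⟩
  obtain ⟨S, hS1, hS2⟩ := hvar n hno hn3 hn M hMo hMs hMn ![a, b, c, d]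
    (by rw [Fin.sum_univ_four]; simpa using habcd)
    (fun l hl hlM hd => by
      have e : gv ![a, b, c, d] = a * b * c * d * (p a b c d * (p a b c d - 2)) := by
        unfold gv ff pf p
        simp
      rw [e] at hd
      have h1 := hcop.isUnit_of_dvd' hd (Int.natCast_dvd_natCast.2 hlM)
      rw [Int.isUnit_iff_natAbs_eq, Int.natAbs_natCast] at h1
      exact hl.one_lt.ne' h1)
  refine ⟨S.image (fun X => (X 0, X 1, X 2, X 3)), ?_, ?_⟩
  · rw [Finset.card_image_of_injective]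
    · exact hS1
    · intro X Y hXY
      simp only [Prod.mk.injEq] at hXY
      obtain ⟨h0, h1, h2, h3⟩ := hXY
      funext i
      fin_cases i
      · exact h0
      · exact h1
      · exact h2
      · exact h3
  · intro x y z w h
    rw [Finset.mem_image] at h
    obtain ⟨X, hX, hXe⟩ := h
    simp only [Prod.mk.injEq] at hXe
    obtain ⟨rfl, rfl, rfl, rfl⟩ := hXe
    obtain ⟨h1, h2, h3, h4, h5, h6, h7, h8⟩ := hS2 X hX
    refine ⟨by rw [← h1, Fin.sum_univ_four], ?_, ⟨h3, h5, h6, h7⟩, h4, h8⟩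
    exact ⟨by simpa using h2 0, by simpa using h2 1, by simpa using h2 2, by simpa using h2 3⟩

end Pool.Agent.Results.MP_0ad054_nt.AlmostPrimeVariables
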