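import Mathlib
import Pool.Agent.X34.E.E40
import Pool.Agent.X34.E.E4

set_option autoImplicit false

/-!
# Representations with a prime `p = x² + 3y² + 5z² + 7w²`: Chen's relaxation of the twin prime, and bounded gaps below `p`

The problem asks for a representation of every odd `n` as `x² + y² + z² + w²` such that `p = x² + 3y² + 5z² + 7w²` and
`p - 2` are both primes. Here `p` is a prime, and either `p - 2` is a product of at most two (large) primes, or the prime
before `p` is `p - h` with `h ≤ 438`; the odd `n ≤ N` with such a representation are at least `N / (log N)^B` in number.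

Proof: a prime `p ≡ 1 (mod 3)` is `x² + 3y²`, and it determines the pair `x, y` up to signs; there are many such `p` of
Chen's kind (Chen's theorem for linear forms, `Pool.Agent.X32.Uni.linU`), resp. many pairs of consecutive primes at a
bounded distance (the starting library's theorem for 45 forms with a lower bound of the right order for the number of the
translates, engine E of helper34), and the number of pairs `x, y` with the same `x² + y²` is bounded in the mean.
-/

namespace Pool.Agent.Results.MP_0ad054_nt.ChenAndBoundedGapPairs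

/-- `n` is a sum of the squares of four integers `x, y, z, w`, such that `x² + 3y² + 5z² + 7w²` is a natural number `p`
with the property `A` -/
def Represented (A : ℕ → Prop) (n : ℕ) : Prop :=
  ∃ x y z w : ℤ, ∃ p : ℕ, (n : ℤ) = x ^ 2 + y ^ 2 + z ^ 2 + w ^ 2 ∧
    (p : ℤ) = x ^ 2 + 3 * y ^ 2 + 5 * z ^ 2 + 7 * w ^ 2 ∧ A p

/-- the number of the odd `n ≤ N` with such a representation -/
noncomputable def count (A : ℕ → Prop) (N : ℕ) : ℕ := Set.ncard {n : ℕ | n ≤ N ∧ Odd n ∧ Represented A n}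

/-- `p` is a prime and `p - 2 ≥ 2` has at most two prime factors (with multiplicity), all larger than `p^(1/10)` -/
def Chen (p : ℕ) : Prop := p.Prime ∧ 2 ≤ p - 2 ∧ (p - 2).primeFactorsList.length ≤ 2 ∧
  ∀ q : ℕ, q.Prime → q ∣ p - 2 → p < q ^ 10

/-- `p` is a prime, and the prime before `p` is `p - h` -/
def Previous (h p : ℕ) : Prop := h < p ∧ p.Prime ∧ (p - h).Prime ∧ ∀ m : ℕ, p - h < m → m < p → ¬ m.Prime

/-- (1) For some `c > 0` and all large `N` at least `c N / (log N)^6` of the odd `n ≤ N` have a representation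
`n = x² + y² + z² + w²` such that `p = x² + 3y² + 5z² + 7w²` is a prime and `p - 2` has at most two prime factors, all
larger than `p^(1/10)`. (2) For some `c > 0` and all large `N` at least `c N / (log N)^92` of the odd `n ≤ N` have a
representation such that `p` is a prime, and the prime before `p` is `p - h` with `1 ≤ h ≤ 438`. -/
theorem result :
    (∃ c : ℝ, 0 < c ∧ ∀ᶠ N : ℕ in Filter.atTop, c * N / Real.log N ^ 6 ≤ count Chen N) ∧
    (∃ c : ℝ, 0 < c ∧ ∀ᶠ N : ℕ in Filter.atTop,
      c * N / Real.log N ^ 92 ≤ count (fun p => ∃ h : ℕ, 1 ≤ h ∧ h ≤ 438 ∧ Previous h p) N) := by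
  classical
  have key : ∀ (A B : ℕ → Prop), (∀ p, B p → A p) → ∀ N : ℕ,
      (Set.ncard {n : ℕ | n ≤ N ∧ n % 2 = 1 ∧ ∃ x y : ℕ, n = x ^ 2 + y ^ 2 ∧ B (x ^ 2 + 3 * y ^ 2)} : ℝ) ≤
        count A N := by
    intro A B hAB N
    unfold count
    rw [Nat.cast_le]
    apply Set.ncard_le_ncard
    · rintro n ⟨h1, h2, x, y, h3, h4⟩
      refine ⟨h1, Nat.odd_iff.2 h2, x, y, 0, 0, x ^ 2 + 3 * y ^ 2, ?_, ?_, hAB _ h4⟩
      · rw [h3]; push_cast; ring
      · push_cast; ring
    · exact (Set.finite_Iic N).subset fun m hm => hm.1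
  constructor
  · obtain ⟨c, hc, h⟩ := Pool.Agent.X34.E.chen_count
    have h1 := Pool.Agent.X34.E.values_ev (fun p => Pool.Agent.X34.E.ChenP p ∧ p % 3 = 1) 2 c hc
      (fun p hp => ⟨hp.1.1, hp.2⟩) h
    refine ⟨c ^ 2 / 73, by positivity, ?_⟩
    have h2 := key Chen (fun p => Pool.Agent.X34.E.ChenP p ∧ p % 3 = 1) (by
      rintro p ⟨⟨h2, h3, h4, h5⟩, h6⟩
      exact ⟨h2, by omega, h4, h5⟩)
    filter_upwards [h1] with N hN
    exact hN.trans (h2 N)
  · have hE := Pool.Agent.X34.E.dhl45R
    obtain ⟨c, hc, h⟩ := Pool.Agent.X34.E.prev_count hE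
    have h1 := Pool.Agent.X34.E.values_ev
      (fun p => p % 3 = 1 ∧ ∃ h : ℕ, 1 ≤ h ∧ h ≤ 438 ∧ Pool.Agent.X34.E.Prev h p) 45 c hc
      (fun p hp => by
        obtain ⟨h2, g, h3, h4, h5⟩ := hp
        exact ⟨h5.2.1, h2⟩) h
    refine ⟨c ^ 2 / 73, by positivity, ?_⟩
    have h2 := key (fun p => ∃ h : ℕ, 1 ≤ h ∧ h ≤ 438 ∧ Previous h p)
      (fun p => p % 3 = 1 ∧ ∃ h : ℕ, 1 ≤ h ∧ h ≤ 438 ∧ Pool.Agent.X34.E.Prev h p) (by
        rintro p ⟨h2, g, h3, h4, h5⟩
        exact ⟨g, h3, h4, h5⟩)
    filter_upwards [h1] with N hN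
    exact hN.trans (h2 N)

end Pool.Agent.Results.MP_0ad054_nt.ChenAndBoundedGapPairs
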