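import Pool.Agent.X37.FS.Pat
import Pool.Agent.X37.FS.Cover

/-!
# MP_0ad054_nt: all almost prime patterns up to Rankin's scale at `p = x² + 3 y² + 5 z² + 7 w²`

For every large odd `n` and every admissible set `H ∋ 0` of at most `k` shifts of size at most
`c log n log₂ n log₄ n / (log₃ n)²` there are many representations `n = x² + y² + z² + w²` for which the numbers
`p + h`, `h ∈ H`, are almost primes and all other integers in this range around `p` have a prime factor at most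
`log n`. For `H = {0, -2}`: isolated almost prime pairs `p - 2`, `p`.
-/

set_option autoImplicit false

namespace Pool.Agent.Results.MP_0ad054_nt.PatternsToRankin

open Filter

/-- the form `p` of the problem -/
def p (x y z w : ℤ) : ℤ := x ^ 2 + 3 * y ^ 2 + 5 * z ^ 2 + 7 * w ^ 2

/-- Rankin's function `log n log₂ n log₄ n / (log₃ n)²` -/
noncomputable def R (n : ℕ) : ℝ :=
  Real.log n * Real.log (Real.log n) * Real.log (Real.log (Real.log (Real.log n))) /
    (Real.log (Real.log (Real.log n))) ^ 2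

open Pool.Agent.X37.FS Pool.Agent.W65.FS

theorem result (k : ℕ) (ε : ℝ) (hε : 0 < ε) :
    ∃ K : ℕ, ∃ δ : ℝ, 0 < δ ∧ ∃ c : ℝ, 0 < c ∧ ∃ n₀ : ℕ, ∀ n : ℕ, Odd n → n₀ ≤ n →
      ∀ H : Finset ℤ, H.card ≤ k → 0 ∈ H → (∀ h ∈ H, (|h| : ℝ) ≤ c * R n) →
      (∀ l : ℕ, l.Prime → ∃ a : ℤ, ∀ h ∈ H, ¬ (l : ℤ) ∣ a + h) →
      ∃ S : Finset (ℤ × ℤ × ℤ × ℤ), (n : ℝ) ^ (1 - ε) ≤ S.card ∧
        ∀ x y z w : ℤ, (x, y, z, w) ∈ S → (n : ℤ) = x ^ 2 + y ^ 2 + z ^ 2 + w ^ 2 ∧
          (∀ h ∈ H, 0 < p x y z w + h ∧ ArithmeticFunction.cardFactors (p x y z w + h).natAbs ≤ K ∧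
            ∀ q : ℕ, q.Prime → (q : ℤ) ∣ p x y z w + h → (n : ℝ) ^ δ < q) ∧
          ∀ t : ℤ, (|t| : ℝ) ≤ c * R n → t ∉ H →
            ∃ q : ℕ, q.Prime ∧ (q : ℝ) ≤ Real.log n ∧ (q : ℤ) ∣ p x y z w + t := by
  classical
  obtain ⟨K, δ, hδ, n₀, hpat⟩ := pattern k ε hε
  obtain ⟨c, hc, hcov⟩ := cover_class k δ hδ
  obtain ⟨n₁, hcov⟩ := eventually_atTop.1 hcov
  refine ⟨K, δ, hδ, c, hc, n₀ + n₁, fun n hno hn H hHk h0 hH hadm => ?_⟩
  obtain ⟨hRn, hcov'⟩ := hcov n (by omega)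
  have hRR : Pool.Agent.X37.RD.RR n = R n := rfl
  rw [hRR] at hRn hcov'
  obtain ⟨y, hy1, hy2, a, ha1, ha2⟩ := hcov' H hHk h0 hH hadm
  have heven : ∀ h ∈ H, Even h ∧ 2 * |h| ≤ n := by
    intro h hh
    obtain ⟨a', ha'⟩ := hadm 2 Nat.prime_two
    have g0 := ha' 0 h0
    have g1 := ha' h hh
    refine ⟨?_, ?_⟩
    · rw [Int.even_iff]
      push_cast at g0 g1
      omega
    · have h1 := hH h hh
      have h2 : (2 * |(h : ℝ)|) ≤ n := by linarith
      exact_mod_cast h2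
  obtain ⟨T, hT⟩ : ∃ T : Finset ℕ, T = (Finset.Icc 3 (2 * y)).filter Nat.Prime := ⟨_, rfl⟩
  have hTp : ∀ l ∈ T, l.Prime ∧ l ≠ 2 ∧ l ≤ 2 * y := by
    intro l hl
    rw [hT, Finset.mem_filter, Finset.mem_Icc] at hl
    exact ⟨hl.2, by omega, hl.1.2⟩
  obtain ⟨M, hM⟩ : ∃ M : ℕ, M = ∏ l ∈ T, l := ⟨_, rfl⟩
  have hMo : Odd M := by
    rw [hM]
    apply Finset.prod_induction _ Odd (fun a b ha hb => ha.mul hb) odd_one
    intro l hl
    exact (hTp l hl).1.odd_of_ne_two (hTp l hl).2.1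
  have hMs : Squarefree M := by
    rw [hM]
    apply Finset.squarefree_prod_of_pairwise_isCoprime
    · intro a ha b hb hab
      rw [Function.onFun, ← Nat.coprime_iff_isRelPrime, Nat.coprime_primes (hTp a ha).1 (hTp b hb).1]
      exact hab
    · intro l hl
      exact (hTp l hl).1.squarefree
  have hMl : ∀ l : ℕ, l.Prime → l ∣ M → l ∈ T := by
    intro l hl hd
    rw [hM] at hd
    obtain ⟨l', hl', hll⟩ := (hl.prime.dvd_finsetProd_iff _).1 hd
    have : l = l' := (Nat.prime_dvd_prime_iff_eq hl (hTp l' hl').1).1 hll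
    rwa [this]
  have hMn : (M : ℝ) ≤ (n : ℝ) ^ δ := by
    refine le_trans ?_ hy2
    have h1 : M ≤ primorial (2 * y) := by
      rw [hM]
      unfold primorial
      apply Finset.prod_le_prod_of_subset_of_one_le'
      · intro l hl
        rw [Finset.mem_filter, Finset.mem_range]
        exact ⟨by have := (hTp l hl).2.2; omega, (hTp l hl).1⟩
      · intro l hl _
        exact (Finset.mem_filter.1 hl).2.one_le
    exact_mod_cast h1
  obtain ⟨v, hv, hv'⟩ := exists_class n M hMo hMs (fun _ => a) (fun l hl hlM => by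
    have := ha1 l hl (hTp l (hMl l hl hlM)).2.2 0 h0
    simpa using this)
  obtain ⟨S, hS1, hS2⟩ := hpat n hno (by omega) H hHk h0 heven hadm M hMo hMs hMn v hv.1
    (fun l hl hlM h hh hd => by
      apply ha1 l hl (hTp l (hMl l hl hlM)).2.2 h hh
      have := dvd_sub hd (hv' l hl hlM)
      have e : pf v + h - (pf v - a) = a + h := by ring
      rwa [e] at this)
  have hmem : ∀ x y z w : ℤ, (x, y, z, w) ∈ S.image (fun X : Fin 4 → ℤ => (X 0, X 1, X 2, X 3)) →
      ∃ X ∈ S, X 0 = x ∧ X 1 = y ∧ X 2 = z ∧ X 3 = w := by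
    intro x y z w h
    rw [Finset.mem_image] at h
    obtain ⟨X, hX, hXe⟩ := h
    simp only [Prod.mk.injEq] at hXe
    exact ⟨X, hX, hXe.1, hXe.2.1, hXe.2.2.1, hXe.2.2.2⟩
  refine ⟨S.image (fun X => (X 0, X 1, X 2, X 3)), ?_, ?_⟩
  · rw [Finset.card_image_of_injective]
    · exact hS1
    · intro X Y hXY
      simp only [Prod.mk.injEq] at hXY
      obtain ⟨h0, h1, h2, h3⟩ := hXY
      funext i
      fin_cases i
      · exact h0
      · exact h1
      · exact h2
      · exact h3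
  · intro x₁ y₁ z₁ w₁ h
    obtain ⟨X, hX, rfl, rfl, rfl, rfl⟩ := hmem x₁ y₁ z₁ w₁ h
    obtain ⟨h1, h2, h3⟩ := hS2 X hX
    refine ⟨by rw [← h1, Fin.sum_univ_four], h3, fun t ht htH => ?_⟩
    obtain ⟨l, hl, hly, hd⟩ := ha2 t ht htH
    refine ⟨l, hl, ?_, ?_⟩
    · refine le_trans ?_ hy1
      exact_mod_cast hly
    · by_cases hl2 : l = 2
      · subst hl2
        have g0 := ha1 2 hl hly 0 h0
        have g1 := pf_odd n hno X h1
        have e : p (X 0) (X 1) (X 2) (X 3) = pf X := rfl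
        rw [e]
        push_cast at hd g0 ⊢
        omega
      · have hlM : l ∣ M := by
          rw [hM]
          apply Finset.dvd_prod_of_mem
          rw [hT, Finset.mem_filter, Finset.mem_Icc]
          have := hl.two_le
          exact ⟨⟨by omega, hly⟩, hl⟩
        have h4 := pf_congr l X v (fun i => (Int.natCast_dvd_natCast.2 hlM).trans (h2 i))
        have h5 := hv' l hl hlM
        have := dvd_add (dvd_add h4 h5) hd
        have e : pf X - pf v + (pf v - a) + (a + t) = p (X 0) (X 1) (X 2) (X 3) + t := by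
          have e' : p (X 0) (X 1) (X 2) (X 3) = pf X := rfl
          rw [e']
          ring
        rwa [e] at this

end Pool.Agent.Results.MP_0ad054_nt.PatternsToRankin
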