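import Pool.Agent.X37.FS.Pat

/-!
# MP_0ad054_nt: almost prime patterns at `x² + 3 y² + 5 z² + 7 w²` with the variables in given residue classes

Every large odd `n` has many representations `n = x² + y² + z² + w²` for which all numbers `p + h`, `h ∈ H`,
are almost primes, where moreover `(x, y, z, w)` lies in a prescribed residue class modulo `M`, or `p` lies in
a prescribed residue class modulo `M`, for all odd squarefree `M ≤ n ^ δ`. For `H = {0, -2}` these are the pairs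
`p - 2`, `p` of the problem.
-/

set_option autoImplicit false

namespace Pool.Agent.Results.MP_0ad054_nt.PrescribedClasses

/-- the form `p` of the problem -/
def p (x y z w : ℤ) : ℤ := x ^ 2 + 3 * y ^ 2 + 5 * z ^ 2 + 7 * w ^ 2

/-- `S` consists of representations of `n` for which all the numbers `p + h`, `h ∈ H`, are positive, have at
most `K` prime factors (with multiplicity) and no prime factor below `B` -/
def AlmostPrimePatterns (n K : ℕ) (B : ℝ) (H : Finset ℤ) (S : Finset (ℤ × ℤ × ℤ × ℤ)) : Prop :=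
  ∀ x y z w : ℤ, (x, y, z, w) ∈ S → (n : ℤ) = x ^ 2 + y ^ 2 + z ^ 2 + w ^ 2 ∧
    ∀ h ∈ H, 0 < p x y z w + h ∧ ArithmeticFunction.cardFactors (p x y z w + h).natAbs ≤ K ∧
      ∀ q : ℕ, q.Prime → (q : ℤ) ∣ p x y z w + h → B < q

open Pool.Agent.X37.FS Pool.Agent.W65.FS

lemma pf_eq (X : Fin 4 → ℤ) : pf X = p (X 0) (X 1) (X 2) (X 3) := rfl

/-- conversion -/
lemma conv (n K : ℕ) (B : ℝ) (H : Finset ℤ) (S : Finset (Fin 4 → ℤ)) (M : ℕ) (v : Fin 4 → ℤ)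
    (hS : ∀ X ∈ S, ∑ i, X i ^ 2 = n ∧ (∀ i, (M : ℤ) ∣ X i - v i) ∧ ∀ h ∈ H, 0 < pf X + h ∧
        ArithmeticFunction.cardFactors (pf X + h).natAbs ≤ K ∧
        ∀ q : ℕ, q.Prime → (q : ℤ) ∣ pf X + h → B < q) :
    ∃ S' : Finset (ℤ × ℤ × ℤ × ℤ), S'.card = S.card ∧ AlmostPrimePatterns n K B H S' ∧
      ∀ x y z w : ℤ, (x, y, z, w) ∈ S' → (M : ℤ) ∣ x - v 0 ∧ (M : ℤ) ∣ y - v 1 ∧ (M : ℤ) ∣ z - v 2 ∧
        (M : ℤ) ∣ w - v 3 := by
  classical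
  have hmem : ∀ x y z w : ℤ, (x, y, z, w) ∈ S.image (fun X : Fin 4 → ℤ => (X 0, X 1, X 2, X 3)) →
      ∃ X ∈ S, X 0 = x ∧ X 1 = y ∧ X 2 = z ∧ X 3 = w := by
    intro x y z w h
    rw [Finset.mem_image] at h
    obtain ⟨X, hX, hXe⟩ := h
    simp only [Prod.mk.injEq] at hXe
    exact ⟨X, hX, hXe.1, hXe.2.1, hXe.2.2.1, hXe.2.2.2⟩
  refine ⟨S.image (fun X => (X 0, X 1, X 2, X 3)), ?_, ?_, ?_⟩
  · rw [Finset.card_image_of_injective]
    intro X Y hXY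
    simp only [Prod.mk.injEq] at hXY
    obtain ⟨h0, h1, h2, h3⟩ := hXY
    funext i
    fin_cases i
    · exact h0
    · exact h1
    · exact h2
    · exact h3
  · intro x y z w h
    obtain ⟨X, hX, rfl, rfl, rfl, rfl⟩ := hmem x y z w h
    obtain ⟨h1, _, h3⟩ := hS X hX
    refine ⟨by rw [← h1, Fin.sum_univ_four], h3⟩
  · intro x y z w h
    obtain ⟨X, hX, rfl, rfl, rfl, rfl⟩ := hmem x y z w h
    obtain ⟨_, h2, _⟩ := hS X hX
    exact ⟨h2 0, h2 1, h2 2, h2 3⟩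

lemma ndvd_of_coprime {M : ℕ} {a : ℤ} (h : IsCoprime a (M : ℤ)) (l : ℕ) (hl : l.Prime) (hlM : l ∣ M) :
    ¬ (l : ℤ) ∣ a := by
  intro hd
  have h1 := h.isUnit_of_dvd' hd (Int.natCast_dvd_natCast.2 hlM)
  rw [Int.isUnit_iff_natAbs_eq, Int.natAbs_natCast] at h1
  exact hl.one_lt.ne' h1

theorem result (k : ℕ) (ε : ℝ) (hε : 0 < ε) : ∃ K : ℕ, ∃ δ : ℝ, 0 < δ ∧ ∃ n₀ : ℕ, ∀ n : ℕ, Odd n → n₀ ≤ n →
    ∀ H : Finset ℤ, H.card ≤ k → 0 ∈ H → (∀ h ∈ H, Even h ∧ 2 * |h| ≤ n) →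
    (∀ l : ℕ, l.Prime → ∃ a : ℤ, ∀ h ∈ H, ¬ (l : ℤ) ∣ a + h) →
    ∀ M : ℕ, Odd M → Squarefree M → (M : ℝ) ≤ (n : ℝ) ^ δ →
      (∀ a b c d : ℤ, (M : ℤ) ∣ a ^ 2 + b ^ 2 + c ^ 2 + d ^ 2 - n → (∀ h ∈ H, IsCoprime (p a b c d + h) (M : ℤ)) →
        ∃ S : Finset (ℤ × ℤ × ℤ × ℤ), (n : ℝ) ^ (1 - ε) ≤ S.card ∧ AlmostPrimePatterns n K ((n : ℝ) ^ δ) H S ∧
          ∀ x y z w : ℤ, (x, y, z, w) ∈ S →
            (M : ℤ) ∣ x - a ∧ (M : ℤ) ∣ y - b ∧ (M : ℤ) ∣ z - c ∧ (M : ℤ) ∣ w - d) ∧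
      (∀ ρ : ℤ, (∀ h ∈ H, IsCoprime (ρ + h) (M : ℤ)) →
        ∃ S : Finset (ℤ × ℤ × ℤ × ℤ), (n : ℝ) ^ (1 - ε) ≤ S.card ∧ AlmostPrimePatterns n K ((n : ℝ) ^ δ) H S ∧
          ∀ x y z w : ℤ, (x, y, z, w) ∈ S → (M : ℤ) ∣ p x y z w - ρ) := by
  classical
  obtain ⟨K, δ, hδ, n₀, hpat⟩ := pattern k ε hε
  refine ⟨K, δ, hδ, n₀, fun n hno hn H hHk h0 hH hadm M hMo hMs hMn => ⟨?_, ?_⟩⟩
  · intro a b c d habcd hcop
    obtain ⟨S, hS1, hS2⟩ := hpat n hno hn H hHk h0 hH hadm M hMo hMs hMn ![a, b, c, d]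
      (by rw [Fin.sum_univ_four]; simpa using habcd)
      (fun l hl hlM h hh => ndvd_of_coprime (hcop h hh) l hl hlM)
    obtain ⟨S', h1, h2, h3⟩ := conv n K _ H S M _ hS2
    refine ⟨S', by rw [h1]; exact hS1, h2, fun x y z w h => ?_⟩
    simpa using h3 x y z w h
  · intro ρ hρ
    obtain ⟨v, hv, hv'⟩ := exists_class n M hMo hMs (fun _ => ρ) (fun l hl hlM => by
      have := ndvd_of_coprime (hρ 0 h0) l hl hlM
      simpa using this)
    obtain ⟨S, hS1, hS2⟩ := hpat n hno hn H hHk h0 hH hadm M hMo hMs hMn v hv.1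
      (fun l hl hlM h hh hd => by
        apply ndvd_of_coprime (hρ h hh) l hl hlM
        have := dvd_sub hd (hv' l hl hlM)
        have e : pf v + h - (pf v - ρ) = ρ + h := by ring
        rwa [e] at this)
    obtain ⟨S', h1, h2, h3⟩ := conv n K _ H S M _ hS2
    refine ⟨S', by rw [h1]; exact hS1, h2, fun x y z w h => ?_⟩
    obtain ⟨g0, g1, g2, g3⟩ := h3 x y z w h
    have hx := pf_congr M ![x, y, z, w] v (by
      intro i
      fin_cases i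
      · simpa using g0
      · simpa using g1
      · simpa using g2
      · simpa using g3)
    have hMρ : (M : ℤ) ∣ pf v - ρ := by
      have h5 : (∏ l ∈ M.primeFactors, l) ∣ (pf v - ρ).natAbs :=
        Finset.prod_primes_dvd _ (fun l hl => (Nat.prime_of_mem_primeFactors hl).prime)
          (fun l hl => Int.natCast_dvd.1 (hv' l (Nat.prime_of_mem_primeFactors hl) (Nat.dvd_of_mem_primeFactors hl)))
      rw [prod_pf hMs] at h5
      exact Int.natCast_dvd.2 h5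
    have := dvd_add hx hMρ
    have e : pf ![x, y, z, w] - pf v + (pf v - ρ) = p x y z w - ρ := by
      rw [pf_eq]
      simp
    rwa [e] at this

end Pool.Agent.Results.MP_0ad054_nt.PrescribedClasses
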